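import Pool.Agent.Helper23.MC.Goals4
import Pool.Agent.Helper73.RR.RK

/-!
# Packet MC-RCH: the choice of the class, with prescribed survivors
-/

set_option autoImplicit false

open Finset Filter Topology

open scoped Classical

namespace Pool.Agent.Helper81.MC

open Pool.Agent.Helper23.MC

theorem one_sub_inv_nonneg {l : ℕ} (hl : l.Prime) : (1 : ℝ) / 2 ≤ 1 - 1 / (l : ℝ) := by
  have h2 : (2 : ℝ) ≤ l := by exact_mod_cast hl.two_le
  have : 1 / (l : ℝ) ≤ 1 / 2 := by gcongr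
  linarith

theorem one_sub_inv_le_one (l : ℕ) : 1 - 1 / (l : ℝ) ≤ 1 := by
  have : 0 ≤ 1 / (l : ℝ) := by positivity
  linarith

theorem one_le_inv {l : ℕ} (hl : l.Prime) : 1 ≤ (1 - 1 / (l : ℝ))⁻¹ := by
  rw [one_le_inv₀ (by linarith [one_sub_inv_nonneg hl])]
  exact one_sub_inv_le_one l

theorem tot_prod {m : ℕ} (hm : m ≠ 0) :
    (m : ℝ) / (m.totient : ℝ) = ∏ l ∈ m.primeFactors, (1 - 1 / (l : ℝ))⁻¹ := by
  have h1 : (m.totient : ℝ) = m * ∏ l ∈ m.primeFactors, (1 - 1 / (l : ℝ)) := by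
    have h := Nat.totient_eq_mul_prod_factors m
    have h' : ((m.totient : ℚ) : ℝ) = ((m * ∏ p ∈ m.primeFactors, (1 - (p : ℚ)⁻¹) : ℚ) : ℝ) := by
      rw [h]
    push_cast at h'
    rw [h']
    congr 1
    refine prod_congr rfl fun l _ => ?_
    rw [one_div]
  rw [h1, prod_inv_distrib]
  have hm' : (m : ℝ) ≠ 0 := by exact_mod_cast hm
  have h2 : ∏ l ∈ m.primeFactors, (1 - 1 / (l : ℝ)) ≠ 0 := by
    refine prod_ne_zero_iff.2 fun l hl => ?_
    have := one_sub_inv_nonneg (Nat.prime_of_mem_primeFactors hl)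
    linarith
  field_simp

theorem one_le_prod_real {ι : Type*} (s : Finset ι) (f : ι → ℝ) (h : ∀ i ∈ s, 1 ≤ f i) :
    1 ≤ ∏ i ∈ s, f i := by
  calc (1 : ℝ) = ∏ i ∈ s, (1 : ℝ) := by simp
    _ ≤ ∏ i ∈ s, f i := prod_le_prod (fun _ _ => zero_le_one) h

theorem le_prod_real {ι : Type*} (s : Finset ι) (f : ι → ℝ) (h : ∀ i ∈ s, 1 ≤ f i) {a : ι}
    (ha : a ∈ s) : f a ≤ ∏ i ∈ s, f i := by
  rw [← mul_prod_erase s f ha]
  have h1 : 1 ≤ ∏ i ∈ s.erase a, f i :=
    one_le_prod_real _ _ fun i hi => h i (mem_of_mem_erase hi)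
  have h2 : 0 ≤ f a := le_trans zero_le_one (h a ha)
  nlinarith

theorem prod_subset_le {s t : Finset ℕ} (h : s ⊆ t) (g : ℕ → ℝ) (hg : ∀ l ∈ t, 1 ≤ g l) :
    ∏ l ∈ s, g l ≤ ∏ l ∈ t, g l := by
  rw [← prod_sdiff h]
  have h1 : 1 ≤ ∏ l ∈ t \ s, g l := one_le_prod_real _ _ fun l hl => hg l (Finset.mem_sdiff.1 hl).1
  have h2 : 1 ≤ ∏ l ∈ s, g l := one_le_prod_real _ _ fun l hl => hg l (h hl)
  nlinarith

/-- a product over a set covered by sets -/
theorem prod_cover {ι : Type*} (H : Finset ι) (D : Finset ℕ) (T : ι → Finset ℕ) (g : ℕ → ℝ)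
    (hg : ∀ i ∈ H, ∀ l ∈ T i, 1 ≤ g l) (hD : ∀ l ∈ D, ∃ i ∈ H, l ∈ T i) :
    ∏ l ∈ D, g l ≤ ∏ i ∈ H, ∏ l ∈ T i, g l := by
  have h0 : ∀ l ∈ D, 1 ≤ g l := by
    intro l hl
    obtain ⟨i, hi, hli⟩ := hD l hl
    exact hg i hi l hli
  have h1 : ∀ l ∈ D, g l ≤ ∏ i ∈ H, (if l ∈ T i then g l else 1) := by
    intro l hl
    obtain ⟨i, hi, hli⟩ := hD l hl
    have := le_prod_real H (fun i => if l ∈ T i then g l else 1) (by
      intro i _
      show 1 ≤ if l ∈ T i then g l else 1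
      split_ifs
      · exact h0 l hl
      · exact le_rfl) hi
    simp only [hli, if_true] at this
    exact this
  calc ∏ l ∈ D, g l ≤ ∏ l ∈ D, ∏ i ∈ H, (if l ∈ T i then g l else 1) :=
        prod_le_prod (fun l hl => le_trans zero_le_one (h0 l hl)) h1
    _ = ∏ i ∈ H, ∏ l ∈ D, (if l ∈ T i then g l else 1) := prod_comm
    _ ≤ ∏ i ∈ H, ∏ l ∈ T i, g l := by
        refine prod_le_prod (fun i _ => prod_nonneg fun l hl => ?_) fun i hi => ?_
        · split_ifs
          · exact le_trans zero_le_one (h0 l hl)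
          · exact zero_le_one
        · rw [← prod_filter]
          exact prod_subset_le (fun l hl => (mem_filter.1 hl).2) g (hg i hi)

/-- the product is at most the sum of the powers -/
theorem prod_le_sum_pow {ι : Type*} (H : Finset ι) (F : ι → ℝ) (hF : ∀ i ∈ H, 1 ≤ F i)
    (hH : H.Nonempty) : ∏ i ∈ H, F i ≤ ∑ i ∈ H, F i ^ (H.card + 1) := by
  obtain ⟨a, ha, hmax⟩ := exists_max_image H F hH
  have h1 : ∏ i ∈ H, F i ≤ F a ^ H.card := by
    rw [← prod_const]
    exact prod_le_prod (fun i hi => le_trans zero_le_one (hF i hi)) hmax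
  have h2 : F a ^ H.card ≤ F a ^ (H.card + 1) := pow_le_pow_right₀ (hF a ha) (Nat.le_succ _)
  have h3 : F a ^ (H.card + 1) ≤ ∑ i ∈ H, F i ^ (H.card + 1) :=
    single_le_sum (f := fun i => F i ^ (H.card + 1))
      (fun i hi => pow_nonneg (le_trans zero_le_one (hF i hi)) _) ha
  linarith

/-- the probability that `h` survives -/
theorem surv (w t p K : ℕ) (H : Finset ℕ) (hH : H.Nonempty) (hK : H.card = K) (htw : t ≤ w)
    (hp : p.Prime) (P1 : Finset ℕ) (hP1 : P1 = ((range (w + 1)).filter Nat.Prime).erase p)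
    (A : ℕ → Finset ℕ) (hA : ∀ l ∈ P1, A l ⊆ range l ∧ (A l).Nonempty)
    (hAt : ∀ l ∈ P1, l ≤ t → A l = (range l).filter (fun c => ∀ h ∈ H, ¬ l ∣ c + h))
    (h : ℕ) (hh : h ∉ H) :
    ∏ l ∈ P1, (1 - (if (l - h % l) % l ∈ A l then 1 / ((A l).card : ℝ) else 0)) ≤
      2 * (∏ l ∈ (Icc 1 t).filter Nat.Prime, (1 - 1 / (l : ℝ))) *
        ∑ h' ∈ H, ((Nat.dist h h' : ℝ) / (Nat.totient (Nat.dist h h') : ℝ)) ^ (K + 1) := by
  obtain ⟨f, hf⟩ : ∃ f : ℕ → ℝ, f = fun l => (1 - (if (l - h % l) % l ∈ A l then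
    1 / ((A l).card : ℝ) else 0)) := ⟨_, rfl⟩
  obtain ⟨PT, hPT⟩ : ∃ PT : Finset ℕ, PT = (Icc 1 t).filter Nat.Prime := ⟨_, rfl⟩
  obtain ⟨D, hD⟩ : ∃ D : Finset ℕ, D = PT.filter (fun l => ∃ h' ∈ H, h ≡ h' [MOD l]) := ⟨_, rfl⟩
  obtain ⟨G, hG⟩ : ∃ G : Finset ℕ, G = PT.filter (fun l => ¬ ∃ h' ∈ H, h ≡ h' [MOD l]) := ⟨_, rfl⟩
  have hprime : ∀ l ∈ P1, l.Prime ∧ l ≤ w ∧ l ≠ p := by
    intro l hl
    rw [hP1, mem_erase, mem_filter, mem_range] at hl
    exact ⟨hl.2.2, by omega, hl.1⟩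
  have hPTp : ∀ l ∈ PT, l.Prime ∧ l ≤ t := by
    intro l hl
    rw [hPT, mem_filter, mem_Icc] at hl
    exact ⟨hl.2, hl.1.2⟩
  have hf01 : ∀ l ∈ P1, 0 ≤ f l ∧ f l ≤ 1 := by
    intro l hl
    rw [hf]
    dsimp only
    have hc : (1 : ℝ) ≤ ((A l).card : ℝ) := by
      exact_mod_cast (hA l hl).2.card_pos
    have h1 : 1 / ((A l).card : ℝ) ≤ 1 := by
      rw [div_le_one (by linarith)]
      exact hc
    have h2 : 0 ≤ 1 / ((A l).card : ℝ) := by positivity
    split_ifs
    · exact ⟨by linarith, by linarith⟩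
    · norm_num
  have hsub : G.erase p ⊆ P1 := by
    intro l hl
    rw [mem_erase, hG, mem_filter] at hl
    have := hPTp l hl.2.1
    rw [hP1, mem_erase, mem_filter, mem_range]
    exact ⟨hl.1, by omega, this.1⟩
  have h1 : ∏ l ∈ P1, f l ≤ ∏ l ∈ G.erase p, f l := by
    rw [← prod_sdiff hsub]
    have e1 : ∏ l ∈ P1 \ G.erase p, f l ≤ 1 :=
      prod_le_one (fun l hl => (hf01 l (Finset.mem_sdiff.1 hl).1).1)
        (fun l hl => (hf01 l (Finset.mem_sdiff.1 hl).1).2)
    have e2 : 0 ≤ ∏ l ∈ G.erase p, f l := prod_nonneg fun l hl => (hf01 l (hsub hl)).1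
    nlinarith
  have h2 : ∏ l ∈ G.erase p, f l ≤ ∏ l ∈ G.erase p, (1 - 1 / (l : ℝ)) := by
    refine prod_le_prod (fun l hl => (hf01 l (hsub hl)).1) fun l hl => ?_
    have hl1 := hsub hl
    rw [mem_erase, hG, mem_filter] at hl
    obtain ⟨hlp, hlPT, hbad⟩ := hl
    obtain ⟨hlprime, hlt⟩ := hPTp l hlPT
    have hlpos := hlprime.pos
    have hmem : (l - h % l) % l ∈ A l := by
      rw [hAt l hl1 hlt, mem_filter, mem_range]
      refine ⟨Nat.mod_lt _ hlpos, fun h' hh' hdvd => hbad ⟨h', hh', ?_⟩⟩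
      have e1 : (l - h % l) % l + h ≡ 0 [MOD l] := by
        have hm := Nat.mod_lt h hlpos
        calc (l - h % l) % l + h ≡ (l - h % l) + h % l [MOD l] :=
              Nat.ModEq.add (Nat.mod_modEq _ _) (Nat.mod_modEq _ _).symm
          _ = l := by omega
          _ ≡ 0 [MOD l] := by
              unfold Nat.ModEq
              simp
      have e2 : (l - h % l) % l + h' ≡ 0 [MOD l] := (Nat.modEq_zero_iff_dvd).2 hdvd
      exact Nat.ModEq.add_left_cancel' _ (e1.trans e2.symm)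
    rw [hf]
    dsimp only
    rw [if_pos hmem]
    have hc : (A l).card ≤ l := by
      have := card_le_card (hA l hl1).1
      rwa [card_range] at this
    have hc0 : (0 : ℝ) < ((A l).card : ℝ) := by exact_mod_cast (hA l hl1).2.card_pos
    have : 1 / (l : ℝ) ≤ 1 / ((A l).card : ℝ) := by
      apply one_div_le_one_div_of_le hc0
      exact_mod_cast hc
    linarith
  have h3 : ∏ l ∈ G.erase p, (1 - 1 / (l : ℝ)) ≤ 2 * ∏ l ∈ G, (1 - 1 / (l : ℝ)) := by
    have e0 : 0 ≤ ∏ l ∈ G.erase p, (1 - 1 / (l : ℝ)) := by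
      refine prod_nonneg fun l hl => ?_
      rw [mem_erase, hG, mem_filter] at hl
      linarith [one_sub_inv_nonneg (hPTp l hl.2.1).1]
    by_cases hpG : p ∈ G
    · rw [← mul_prod_erase G (fun l : ℕ => (1 - 1 / (l : ℝ))) hpG]
      have := one_sub_inv_nonneg hp
      nlinarith
    · rw [erase_eq_of_notMem hpG] at e0 ⊢
      linarith
  have h4 : ∏ l ∈ PT, (1 - 1 / (l : ℝ)) = (∏ l ∈ D, (1 - 1 / (l : ℝ))) *
      ∏ l ∈ G, (1 - 1 / (l : ℝ)) := by
    rw [hD, hG]
    exact (prod_filter_mul_prod_filter_not PT _ _).symm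
  have hDpos : 0 < ∏ l ∈ D, (1 - 1 / (l : ℝ)) := by
    refine prod_pos fun l hl => ?_
    rw [hD, mem_filter] at hl
    linarith [one_sub_inv_nonneg (hPTp l hl.1).1]
  have hGnn : 0 ≤ ∏ l ∈ G, (1 - 1 / (l : ℝ)) := by
    refine prod_nonneg fun l hl => ?_
    rw [hG, mem_filter] at hl
    linarith [one_sub_inv_nonneg (hPTp l hl.1).1]
  have h5 : ∏ l ∈ G, (1 - 1 / (l : ℝ)) = (∏ l ∈ PT, (1 - 1 / (l : ℝ))) *
      ∏ l ∈ D, (1 - 1 / (l : ℝ))⁻¹ := by
    rw [h4, prod_inv_distrib]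
    field_simp
  have hne : ∀ h' ∈ H, Nat.dist h h' ≠ 0 := by
    intro h' hh' e
    exact hh (by rw [Nat.eq_of_dist_eq_zero e]; exact hh')
  have h6 : ∏ l ∈ D, (1 - 1 / (l : ℝ))⁻¹ ≤ ∏ h' ∈ H,
      ((Nat.dist h h' : ℝ) / (Nat.totient (Nat.dist h h') : ℝ)) := by
    have e1 := prod_cover H D (fun h' => (Nat.dist h h').primeFactors)
      (fun l : ℕ => (1 - 1 / (l : ℝ))⁻¹)
      (fun i _ l hl => one_le_inv (Nat.prime_of_mem_primeFactors hl)) (by
        intro l hl
        rw [hD, mem_filter] at hl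
        obtain ⟨hlPT, h', hh', hmod⟩ := hl
        refine ⟨h', hh', ?_⟩
        rw [Nat.mem_primeFactors]
        refine ⟨(hPTp l hlPT).1, ?_, hne h' hh'⟩
        rcases le_total h h' with hle | hle
        · rw [Nat.dist_eq_sub_of_le hle]
          exact (Nat.modEq_iff_dvd' hle).1 hmod
        · rw [Nat.dist_eq_sub_of_le_right hle]
          exact (Nat.modEq_iff_dvd' hle).1 hmod.symm)
    refine e1.trans (le_of_eq (prod_congr rfl fun h' hh' => ?_))
    exact (tot_prod (hne h' hh')).symm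
  have h7 := prod_le_sum_pow H (fun h' => (Nat.dist h h' : ℝ) / (Nat.totient (Nat.dist h h') : ℝ))
    (by
      intro h' hh'
      rw [tot_prod (hne h' hh')]
      exact one_le_prod_real _ _ fun l hl => one_le_inv (Nat.prime_of_mem_primeFactors hl)) hH
  rw [hK] at h7
  have hPTnn : 0 ≤ ∏ l ∈ PT, (1 - 1 / (l : ℝ)) := by
    refine prod_nonneg fun l hl => ?_
    linarith [one_sub_inv_nonneg (hPTp l hl).1]
  have h8 : ∏ l ∈ P1, f l ≤ 2 * (∏ l ∈ PT, (1 - 1 / (l : ℝ))) *
      ∑ h' ∈ H, ((Nat.dist h h' : ℝ) / (Nat.totient (Nat.dist h h') : ℝ)) ^ (K + 1) := by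
    calc ∏ l ∈ P1, f l ≤ 2 * ∏ l ∈ G, (1 - 1 / (l : ℝ)) := h1.trans (h2.trans h3)
      _ = 2 * (∏ l ∈ PT, (1 - 1 / (l : ℝ))) * ∏ l ∈ D, (1 - 1 / (l : ℝ))⁻¹ := by
          rw [h5]
          ring
      _ ≤ _ := by
          have := h6.trans h7
          gcongr
  rw [hf, hPT] at h8
  exact h8

/-- the number of the prime factors `> t` -/
theorem card_big {t h Y : ℕ} (ht : 2 ≤ t) (h0 : h ≠ 0) (hY : h ≤ Y) :
    ((h.primeFactors.filter (fun l => t < l)).card : ℝ) * Real.log t ≤ Real.log Y := by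
  have h1 : t ^ (h.primeFactors.filter (fun l => t < l)).card ≤ Y := by
    calc t ^ (h.primeFactors.filter (fun l => t < l)).card
        = ∏ l ∈ h.primeFactors.filter (fun l => t < l), t := by rw [prod_const]
      _ ≤ ∏ l ∈ h.primeFactors.filter (fun l => t < l), l :=
          prod_le_prod' fun l hl => (mem_filter.1 hl).2.le
      _ ≤ ∏ l ∈ h.primeFactors, l := by
          refine prod_le_prod_of_subset_of_one_le' (filter_subset _ _) fun l hl _ => ?_
          exact (Nat.prime_of_mem_primeFactors hl).one_lt.le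
      _ ≤ h := Nat.le_of_dvd (Nat.pos_of_ne_zero h0) (Nat.prod_primeFactors_dvd h)
      _ ≤ Y := hY
  have h2 : (0 : ℝ) < t := by exact_mod_cast (by omega : 0 < t)
  rw [← Real.log_pow]
  apply Real.log_le_log (by positivity)
  exact_mod_cast h1

theorem ev : ∀ᶠ w : ℕ in atTop, 2 ≤ w ∧ 1 ≤ Real.log w ∧ 1 ≤ Real.log (Real.log w) ∧
    0 < Real.log (Real.log (Real.log w)) ∧
    4 * Real.log (Real.log w) ≤ Real.log w ∧ Real.log w ^ 2 ≤ w := by
  have t1 : Tendsto (fun w : ℕ => Real.log w) atTop atTop :=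
    Real.tendsto_log_atTop.comp tendsto_natCast_atTop_atTop
  have t2 : Tendsto (fun w : ℕ => Real.log (Real.log w)) atTop atTop :=
    Real.tendsto_log_atTop.comp t1
  have t3 : Tendsto (fun w : ℕ => Real.log (Real.log (Real.log w))) atTop atTop :=
    Real.tendsto_log_atTop.comp t2
  have h4 : ∀ᶠ x : ℝ in atTop, 4 * Real.log x ≤ x := by
    have h := (Real.isLittleO_log_id_atTop).bound (c := 1 / 4) (by norm_num)
    filter_upwards [h, eventually_ge_atTop 1] with x hx hx1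
    rw [id, Real.norm_of_nonneg (Real.log_nonneg hx1), Real.norm_of_nonneg (by linarith)] at hx
    linarith
  have h5 : ∀ᶠ x : ℝ in atTop, x ^ 2 ≤ Real.exp x := by
    have h := (Real.tendsto_exp_div_pow_atTop 2).eventually_ge_atTop 1
    filter_upwards [h, eventually_gt_atTop 0] with x hx hx0
    rwa [le_div_iff₀ (by positivity), one_mul] at hx
  filter_upwards [eventually_ge_atTop 2, t1.eventually_ge_atTop 1, t2.eventually_ge_atTop 1,
    t3.eventually_gt_atTop 0, t1.eventually h4, t1.eventually h5] with w a1 a2 a3 a4 a5 a6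
  refine ⟨a1, a2, a3, a4, a5, ?_⟩
  rwa [Real.exp_log (by exact_mod_cast (by omega : 0 < w))] at a6

theorem rch (hRNZ : StmtRNZ) (hZS : StmtZS) (hAVG : StmtAVG) : StmtRCH := by
  intro K hK1
  obtain ⟨C1, hC1, w1, hw1⟩ := hRNZ
  obtain ⟨C2, hC2, w2, hw2⟩ := hZS (K + 1)
  obtain ⟨C3, hC3, hMP⟩ := Pool.Agent.Helper37.PP.mp
  obtain ⟨w3, hw3⟩ := eventually_atTop.1 ev
  have hC30 : 0 < C3 := by linarith
  have hKr : (1 : ℝ) ≤ K := by exact_mod_cast hK1
  refine ⟨K + 2 * C3 * (K * C2) * C1, ?_, max w1 (max w2 w3), ?_⟩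
  · have : 0 ≤ 2 * C3 * (K * C2) * C1 := by positivity
    linarith
  intro w p Y hw hp hpw hY1 hY2 H hHY hHK hadm
  obtain ⟨hw2', hl1, hLL, hLLL, h4LL, hsq⟩ := hw3 w (by omega)
  have hwY : w ≤ Y := by
    have h0 : (0 : ℝ) ≤ w := by positivity
    have : (w : ℝ) ≤ Y := by nlinarith
    exact_mod_cast this
  obtain ⟨t, ht2, htw, ht4, hsm, hlogt1, hlogt2⟩ := hw1 w Y (by omega) hwY hY2
  have hHne : H.Nonempty := card_pos.1 (by omega)
  have hl0 : 0 < Real.log w := by linarith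
  have ht0 : (0 : ℝ) < t := by exact_mod_cast (by omega : 0 < t)
  have hlogt4 : 4 * Real.log (Real.log w) ≤ Real.log t := by
    have := Real.log_le_log (by positivity) ht4
    rw [Real.log_pow] at this
    exact_mod_cast this
  have hlogt0 : 0 < Real.log t := by linarith
  -- the exceptional primes
  obtain ⟨Bd, hBd⟩ : ∃ Bd : Finset ℕ, Bd = ((Icc 1 w).filter Nat.Prime).filter
    (fun l => t < l ∧ (l = p ∨ ∃ h ∈ H, l ∣ h)) := ⟨_, rfl⟩
  have hBdt : ∀ l ∈ Bd, t < l := by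
    intro l hl
    rw [hBd, mem_filter] at hl
    exact hl.2.1
  have hBdc : (Bd.card : ℝ) ≤ ((K + 1 : ℕ) : ℝ) * Real.log w := by
    have h1 : Bd ⊆ insert p (H.biUnion fun h => h.primeFactors.filter (fun l => t < l)) := by
      intro l hl
      rw [hBd, mem_filter, mem_filter] at hl
      rw [mem_insert, mem_biUnion]
      rcases hl.2.2 with h | ⟨h, hh, hd⟩
      · exact Or.inl h
      · refine Or.inr ⟨h, hh, ?_⟩
        rw [mem_filter, Nat.mem_primeFactors]
        refine ⟨⟨hl.1.2, hd, ?_⟩, hl.2.1⟩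
        have := mem_Icc.1 (hHY hh)
        omega
    have h2 : Bd.card ≤ ∑ h ∈ H, (h.primeFactors.filter (fun l => t < l)).card + 1 :=
      (card_le_card h1).trans ((card_insert_le _ _).trans (Nat.add_le_add_right card_biUnion_le 1))
    have hlogY : Real.log Y ≤ 2 * Real.log w := by
      have hwpos : (0 : ℝ) < w := by exact_mod_cast (by omega : 0 < w)
      have hYpos : (0 : ℝ) < Y := by exact_mod_cast (by omega : 0 < Y)
      calc Real.log Y ≤ Real.log (w * Real.log w ^ 4) := Real.log_le_log hYpos hY2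
        _ = Real.log w + 4 * Real.log (Real.log w) := by
            rw [Real.log_mul hwpos.ne' (by positivity), Real.log_pow]
            norm_num
        _ ≤ 2 * Real.log w := by linarith
    have h3 : ∀ h ∈ H, ((h.primeFactors.filter (fun l => t < l)).card : ℝ) ≤ Real.log w := by
      intro h hh
      have hm := mem_Icc.1 (hHY hh)
      have h4 := card_big (t := t) (h := h) (Y := Y) ht2 (by omega) hm.2
      have h5 : (0 : ℝ) ≤ ((h.primeFactors.filter (fun l => t < l)).card : ℝ) := by positivity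
      have h6 : 2 ≤ Real.log t := by linarith
      nlinarith
    have h4 : (Bd.card : ℝ) ≤ ∑ h ∈ H, ((h.primeFactors.filter (fun l => t < l)).card : ℝ) + 1 := by
      exact_mod_cast h2
    have h5 : ∑ h ∈ H, ((h.primeFactors.filter (fun l => t < l)).card : ℝ) ≤ K * Real.log w := by
      calc _ ≤ ∑ h ∈ H, Real.log w := sum_le_sum h3
        _ = K * Real.log w := by rw [sum_const, nsmul_eq_mul, hHK]
    push_cast
    linarith
  -- the classes
  obtain ⟨P1, hP1⟩ : ∃ P1 : Finset ℕ, P1 = ((range (w + 1)).filter Nat.Prime).erase p := ⟨_, rfl⟩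
  have hP1p : ∀ l ∈ P1, l.Prime := by
    intro l hl
    rw [hP1, mem_erase, mem_filter] at hl
    exact hl.2.2
  have hprod : primorial w / p = ∏ l ∈ P1, l := by
    have hmem : p ∈ (range (w + 1)).filter Nat.Prime := by
      rw [mem_filter, mem_range]
      exact ⟨by omega, hp⟩
    have h1 : primorial w = p * ∏ l ∈ P1, l := by
      rw [hP1, mul_prod_erase _ (fun l => l) hmem]
      rfl
    rw [h1, Nat.mul_div_cancel_left _ hp.pos]
  obtain ⟨A, hA⟩ : ∃ A : ℕ → Finset ℕ, A = fun l => if t < l ∧ l ∉ Bd then {0} else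
    (range l).filter (fun c => ∀ h ∈ H, ¬ l ∣ c + h) := ⟨_, rfl⟩
  have hA1 : ∀ l ∈ P1, A l ⊆ range l ∧ (A l).Nonempty := by
    intro l hl
    have hlp := hP1p l hl
    rw [hA]
    dsimp only
    split_ifs with hc
    · refine ⟨?_, singleton_nonempty 0⟩
      rw [singleton_subset_iff, mem_range]
      exact hlp.pos
    · refine ⟨filter_subset _ _, ?_⟩
      obtain ⟨a, ha⟩ := hadm l hlp
      refine ⟨(l - a % l) % l, ?_⟩
      rw [mem_filter, mem_range]
      refine ⟨Nat.mod_lt _ hlp.pos, fun h hh hd => ha h hh ?_⟩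
      have hm := Nat.mod_lt a hlp.pos
      have e1 : (l - a % l) % l + a ≡ 0 [MOD l] := by
        calc (l - a % l) % l + a ≡ (l - a % l) + a % l [MOD l] :=
              Nat.ModEq.add (Nat.mod_modEq _ _) (Nat.mod_modEq _ _).symm
          _ = l := by omega
          _ ≡ 0 [MOD l] := by
              unfold Nat.ModEq
              simp
      have e2 : (l - a % l) % l + h ≡ 0 [MOD l] := (Nat.modEq_zero_iff_dvd).2 hd
      exact Nat.ModEq.add_left_cancel' _ (e2.trans e1.symm)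
  have hAt : ∀ l ∈ P1, l ≤ t → A l = (range l).filter (fun c => ∀ h ∈ H, ¬ l ∣ c + h) := by
    intro l _ hlt
    rw [hA]
    dsimp only
    rw [if_neg (by omega)]
  obtain ⟨b, hb1, hb2, hb3⟩ := hAVG P1 (Icc 1 Y \ H) A hP1p hA1
  refine ⟨b, ?_, ?_, ?_⟩
  · rw [hprod]
    exact hb1
  · intro h hh
    rw [hprod]
    refine Nat.Coprime.prod_right fun l hl => ?_
    have hlp := hP1p l hl
    rw [Nat.coprime_comm, hlp.coprime_iff_not_dvd]
    intro hd
    have hbA := hb2 l hl
    rw [hA] at hbA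
    dsimp only at hbA
    have hbl : b % l + h ≡ 0 [MOD l] :=
      (Nat.ModEq.add_right h (Nat.mod_modEq b l)).trans ((Nat.modEq_zero_iff_dvd).2 hd)
    split_ifs at hbA with hc
    · rw [mem_singleton] at hbA
      rw [hbA, zero_add] at hbl
      have hd' := (Nat.modEq_zero_iff_dvd).1 hbl
      apply hc.2
      rw [hBd, mem_filter, mem_filter, mem_Icc]
      rw [hP1, mem_erase, mem_filter, mem_range] at hl
      exact ⟨⟨⟨hlp.pos, by omega⟩, hlp⟩, hc.1, Or.inr ⟨h, hh, hd'⟩⟩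
    · rw [mem_filter] at hbA
      exact hbA.2 h hh ((Nat.modEq_zero_iff_dvd).1 hbl)
  · rw [hprod]
    have hle : ((Icc 1 Y).filter (fun h => Nat.Coprime (b + h) (∏ l ∈ P1, l))).card ≤
        K + ((Icc 1 Y \ H).filter (fun h => Nat.Coprime (b + h) (∏ l ∈ P1, l))).card := by
      have h1 : (Icc 1 Y).filter (fun h => Nat.Coprime (b + h) (∏ l ∈ P1, l)) ⊆
          H ∪ (Icc 1 Y \ H).filter (fun h => Nat.Coprime (b + h) (∏ l ∈ P1, l)) := by
        intro h hh
        rw [mem_filter] at hh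
        by_cases hH : h ∈ H
        · exact mem_union_left _ hH
        · exact mem_union_right _ (mem_filter.2 ⟨Finset.mem_sdiff.2 ⟨hh.1, hH⟩, hh.2⟩)
      have := (card_le_card h1).trans (card_union_le _ _)
      rwa [hHK] at this
    obtain ⟨W, hW⟩ : ∃ W : ℝ, W = ∏ l ∈ (Icc 1 t).filter Nat.Prime, (1 - 1 / (l : ℝ)) := ⟨_, rfl⟩
    have hWle : W ≤ C3 / Real.log t := by
      rw [hW]
      exact Pool.Agent.Helper73.RR.prod_le hMP hC30 t ht2
    have hW0 : 0 ≤ W := by
      rw [hW]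
      refine prod_nonneg fun l hl => ?_
      linarith [one_sub_inv_nonneg (mem_filter.1 hl).2]
    obtain ⟨FF, hFF⟩ : ∃ FF : ℕ → ℕ → ℝ, FF = fun h h' =>
      ((Nat.dist h h' : ℝ) / (Nat.totient (Nat.dist h h') : ℝ)) ^ (K + 1) := ⟨_, rfl⟩
    have hFF0 : ∀ h h', 0 ≤ FF h h' := by
      intro h h'
      rw [hFF]
      positivity
    -- the mean over the complement of `H`
    have hmean : ∀ h ∈ Icc 1 Y \ H,
        ∏ l ∈ P1, (1 - (if (l - h % l) % l ∈ A l then 1 / ((A l).card : ℝ) else 0)) ≤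
        if h ∈ ZZ Y t w Bd then 2 * W * ∑ h' ∈ H, FF h h' else 0 := by
      intro h hh
      rw [Finset.mem_sdiff] at hh
      split_ifs with hZ
      · rw [hW, hFF]
        exact surv w t p K H hHne hHK htw hp P1 hP1 A hA1 hAt h hh.2
      · have : ∃ q, q.Prime ∧ t < q ∧ q ≤ w ∧ q ∉ Bd ∧ q ∣ h := by
          by_contra hcon
          apply hZ
          unfold ZZ
          rw [mem_filter]
          refine ⟨hh.1, fun q hq htq hqw hqB hqd => hcon ⟨q, hq, htq, hqw, hqB, hqd⟩⟩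
        obtain ⟨q, hq, htq, hqw, hqB, hqd⟩ := this
        have hqp : q ≠ p := by
          rintro rfl
          apply hqB
          rw [hBd, mem_filter, mem_filter, mem_Icc]
          exact ⟨⟨⟨hq.pos, hqw⟩, hq⟩, htq, Or.inl rfl⟩
        have hqP1 : q ∈ P1 := by
          rw [hP1, mem_erase, mem_filter, mem_range]
          exact ⟨hqp, by omega, hq⟩
        refine le_of_eq (prod_eq_zero hqP1 ?_)
        have hAq : A q = {0} := by
          rw [hA]
          dsimp only
          rw [if_pos ⟨htq, hqB⟩]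
        have hmod : h % q = 0 := Nat.mod_eq_zero_of_dvd hqd
        rw [hAq, hmod, Nat.sub_zero, Nat.mod_self]
        simp
    have hsum : ∑ h ∈ Icc 1 Y \ H,
        ∏ l ∈ P1, (1 - (if (l - h % l) % l ∈ A l then 1 / ((A l).card : ℝ) else 0)) ≤
        2 * W * (K * (C2 * (Y * Real.log (Real.log w) / Real.log w))) := by
      calc _ ≤ ∑ h ∈ Icc 1 Y \ H, (if h ∈ ZZ Y t w Bd then 2 * W * ∑ h' ∈ H, FF h h' else 0) :=
            sum_le_sum hmean
        _ = ∑ h ∈ (Icc 1 Y \ H).filter (fun h => h ∈ ZZ Y t w Bd),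
              2 * W * ∑ h' ∈ H, FF h h' := by rw [sum_filter]
        _ = 2 * W * ∑ h' ∈ H, ∑ h ∈ (Icc 1 Y \ H).filter (fun h => h ∈ ZZ Y t w Bd),
              FF h h' := by
            rw [← mul_sum, sum_comm]
        _ ≤ 2 * W * ∑ h' ∈ H, (C2 * (Y * Real.log (Real.log w) / Real.log w)) := by
            refine mul_le_mul_of_nonneg_left (sum_le_sum fun h' hh' => ?_) (by positivity)
            have h1 := hw2 w Y t h' (by omega) hwY hY2 ht2 htw ht4 hsm (hHY hh') Bd hBdt hBdc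
            refine le_trans ?_ h1
            rw [hFF]
            refine sum_le_sum_of_subset_of_nonneg ?_ fun h _ _ => by positivity
            intro h hh
            rw [mem_filter, Finset.mem_sdiff] at hh
            rw [mem_filter]
            refine ⟨hh.2, ?_⟩
            rintro rfl
            exact hh.1.2 hh'
        _ = _ := by rw [sum_const, nsmul_eq_mul, hHK]
    have hLL0 : 0 < Real.log (Real.log w) := by linarith
    have hfin1 : W ≤ C3 * (C1 * Real.log (Real.log w)) /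
        (Real.log w * Real.log (Real.log (Real.log w))) := by
      refine hWle.trans ?_
      rw [div_le_div_iff₀ hlogt0 (by positivity)]
      have h1 : Real.log w * Real.log (Real.log (Real.log w)) ≤
          Real.log t * (C1 * Real.log (Real.log w)) := by
        rwa [div_le_iff₀ (by positivity)] at hlogt1
      nlinarith
    obtain ⟨R, hR⟩ : ∃ R : ℝ, R = Y * Real.log (Real.log w) ^ 2 /
        (Real.log w ^ 2 * Real.log (Real.log (Real.log w))) := ⟨_, rfl⟩
    have hR1 : 1 ≤ R := by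
      rw [hR, le_div_iff₀ (by positivity), one_mul]
      have h1 : Real.log (Real.log (Real.log w)) ≤ Real.log (Real.log w) := by
        have := Real.log_le_sub_one_of_pos hLL0
        linarith
      have h2 : Real.log w ^ 2 ≤ Y := hsq.trans (by exact_mod_cast hwY)
      have h3 : Real.log (Real.log w) ≤ Real.log (Real.log w) ^ 2 := by nlinarith
      exact mul_le_mul h2 (h1.trans h3) hLLL.le (by positivity)
    have hfin2 : 2 * W * (K * (C2 * (Y * Real.log (Real.log w) / Real.log w))) ≤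
        2 * C3 * (K * C2) * C1 * R := by
      have h1 : 0 ≤ (K : ℝ) * (C2 * (Y * Real.log (Real.log w) / Real.log w)) := by positivity
      calc 2 * W * (K * (C2 * (Y * Real.log (Real.log w) / Real.log w)))
          ≤ 2 * (C3 * (C1 * Real.log (Real.log w)) /
            (Real.log w * Real.log (Real.log (Real.log w)))) *
            (K * (C2 * (Y * Real.log (Real.log w) / Real.log w))) := by gcongr
        _ = _ := by
            rw [hR]
            field_simp
    have hcast : (((Icc 1 Y).filter (fun h => Nat.Coprime (b + h) (∏ l ∈ P1, l))).card : ℝ) ≤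
        K + (((Icc 1 Y \ H).filter (fun h => Nat.Coprime (b + h) (∏ l ∈ P1, l))).card : ℝ) := by
      exact_mod_cast hle
    rw [← hR]
    have hKR : (K : ℝ) ≤ K * R := by nlinarith
    calc _ ≤ (K : ℝ) + 2 * C3 * (K * C2) * C1 * R := by
          linarith [hb3.trans (hsum.trans hfin2)]
      _ ≤ (K + 2 * C3 * (K * C2) * C1) * R := by
          rw [add_mul]
          linarith

end Pool.Agent.Helper81.MC
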